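import Pool.Agent.helper21.UB.Spec

/-!
# PAI: pairs of points in a cube
-/

set_option autoImplicit false

open Quaternion

namespace Pool.Agent.helper21.UB

theorem PAI (hFIN : FIN_stmt) : PAI_stmt := by
  classical
  intro m k hm hk
  set S : Finset (Fin 3 → ℤ) := Fintype.piFinset (fun _ : Fin 3 => Finset.Ico (0 : ℤ) (3 * m))
    with hS
  set Q : Finset (Fin 3 → ℤ) := Fintype.piFinset
    (fun _ : Fin 3 => Finset.Ico (m : ℤ) (2 * m)) with hQ
  have hSm : ∀ x, x ∈ S ↔ ∀ i, 0 ≤ x i ∧ x i < 3 * m := by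
    intro x
    simp only [hS, Fintype.mem_piFinset, Finset.mem_Ico]
  have hQm : ∀ x, x ∈ Q ↔ ∀ i, (m : ℤ) ≤ x i ∧ x i < 2 * m := by
    intro x
    simp only [hQ, Fintype.mem_piFinset, Finset.mem_Ico]
  have hfin : {v : Fin 3 → ℤ | ∑ i, v i ^ 2 = (k : ℤ)}.Finite := by
    rw [Set.Finite]
    exact hFIN.1 k
  set T : Finset (Fin 3 → ℤ) := hfin.toFinset with hT
  have hTc : r3 k = T.card := by
    rw [hT, ← Set.ncard_eq_toFinset_card _ hfin]
    rfl
  refine ⟨S, ?_, fun x hx => (hSm x).1 hx, ?_⟩
  · rw [hS, Fintype.card_piFinset]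
    simp only [Int.card_Ico, Finset.prod_const, Finset.card_univ, Fintype.card_fin]
    have : ((3 * m : ℤ) - 0).toNat = 3 * m := by omega
    rw [this]
    ring
  · have hQc : Q.card = m ^ 3 := by
      rw [hQ, Fintype.card_piFinset]
      simp only [Int.card_Ico, Finset.prod_const, Finset.card_univ, Fintype.card_fin]
      have : ((2 * m : ℤ) - m).toNat = m := by omega
      rw [this]
    rw [hTc, ← hQc, ← Finset.card_product]
    refine Finset.card_le_card_of_injOn (fun p => (p.1 + p.2, p.1)) ?_ ?_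
    · rintro ⟨x, v⟩ hp
      rw [Finset.mem_coe, Finset.mem_product] at hp
      obtain ⟨hx, hv⟩ := hp
      have hv' : ∑ i, v i ^ 2 = (k : ℤ) := by
        have : v ∈ hfin.toFinset := hv
        rw [Set.Finite.mem_toFinset] at this
        exact this
      have hx' := (hQm x).1 hx
      have hvi : ∀ i, |v i| ≤ m := by
        intro i
        have h1 : v i ^ 2 ≤ ∑ i, v i ^ 2 :=
          Finset.single_le_sum (f := fun i => v i ^ 2) (fun j _ => sq_nonneg (v j))
            (Finset.mem_univ i)
        rw [hv'] at h1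
        have h2 : v i ^ 2 ≤ (m : ℤ) ^ 2 := h1.trans (by exact_mod_cast hk)
        exact abs_le_of_sq_le_sq h2 (by positivity)
      rw [Finset.mem_coe, Finset.mem_filter, Finset.mem_product, hSm, hSm]
      refine ⟨⟨fun i => ?_, fun i => ?_⟩, ?_⟩
      · have h1 := hx' i
        have h2 := abs_le.1 (hvi i)
        simp only [Pi.add_apply]
        omega
      · have h1 := hx' i
        simp only
        omega
      · simp only [Pi.add_apply, add_sub_cancel_left]
        exact hv'
    · rintro ⟨x, v⟩ _ ⟨x', v'⟩ _ h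
      simp only [Prod.mk.injEq] at h
      obtain ⟨h1, h2⟩ := h
      subst h2
      rw [add_right_inj] at h1
      rw [h1]

end Pool.Agent.helper21.UB
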